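import Pool.Agent.Helper23.GK.StB

/-! # Project GK, module EMS -/

set_option autoImplicit false

namespace Pool.Agent.Helper67.GK

open Finset
open Pool.Agent.Helper23.GK

private noncomputable def emsF (t θ x : ℝ) : ℂ :=
  Complex.exp (((-(t * Real.log (x + θ)) : ℝ) : ℂ) * Complex.I)

private noncomputable def emsG (t θ x : ℝ) : ℂ :=
  (((x + θ : ℝ) : ℂ) * emsF t θ x) / (1 - (t : ℂ) * Complex.I)

private theorem ems_norm (t θ x : ℝ) : ‖emsF t θ x‖ = 1 := by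
  unfold emsF
  exact Complex.norm_exp_ofReal_mul_I _

private theorem ems_derF (t θ x : ℝ) (hx : 0 < x + θ) :
    HasDerivAt (emsF t θ) (emsF t θ x * (((-(t * (x + θ)⁻¹) : ℝ) : ℂ) * Complex.I)) x := by
  have h1 : HasDerivAt (fun y : ℝ => y + θ) 1 x := (hasDerivAt_id x).add_const θ
  have h2 : HasDerivAt (fun y : ℝ => Real.log (y + θ)) ((x + θ)⁻¹) x := by
    have := (Real.hasDerivAt_log hx.ne').comp x h1
    rw [mul_one] at this
    exact this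
  have h3 : HasDerivAt (fun y : ℝ => -(t * Real.log (y + θ))) (-(t * (x + θ)⁻¹)) x :=
    (h2.const_mul t).neg
  have h4 : HasDerivAt (fun y : ℝ => ((-(t * Real.log (y + θ)) : ℝ) : ℂ) * Complex.I)
      (((-(t * (x + θ)⁻¹) : ℝ) : ℂ) * Complex.I) x :=
    h3.ofReal_comp.mul_const _
  exact h4.cexp

private theorem ems_ne (t : ℝ) : (1 - (t : ℂ) * Complex.I) ≠ 0 := by
  intro h
  have := congrArg Complex.re h
  simp at this

private theorem ems_derG (t θ x : ℝ) (hx : 0 < x + θ) :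
    HasDerivAt (emsG t θ) (emsF t θ x) x := by
  have h1 : HasDerivAt (fun y : ℝ => ((y + θ : ℝ) : ℂ)) ((1 : ℝ) : ℂ) x :=
    ((hasDerivAt_id x).add_const θ).ofReal_comp
  have h2 := (h1.mul (ems_derF t θ x hx)).div_const (1 - (t : ℂ) * Complex.I)
  have hx' : ((x + θ : ℝ) : ℂ) ≠ 0 := by exact_mod_cast hx.ne'
  have e : (((1 : ℝ) : ℂ) * emsF t θ x + ((x + θ : ℝ) : ℂ) *
      (emsF t θ x * (((-(t * (x + θ)⁻¹) : ℝ) : ℂ) * Complex.I))) /
      (1 - (t : ℂ) * Complex.I) = emsF t θ x := by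
    rw [div_eq_iff (ems_ne t)]
    have e1 : ((-(t * (x + θ)⁻¹) : ℝ) : ℂ) = -(t : ℂ) * ((x + θ : ℝ) : ℂ)⁻¹ := by
      push_cast
      ring
    rw [e1]
    have e2 : ((x + θ : ℝ) : ℂ) * (emsF t θ x * (-(t : ℂ) * ((x + θ : ℝ) : ℂ)⁻¹ * Complex.I)) =
        (((x + θ : ℝ) : ℂ) * ((x + θ : ℝ) : ℂ)⁻¹) * (emsF t θ x * (-(t : ℂ) * Complex.I)) := by
      ring
    rw [e2, mul_inv_cancel₀ hx']
    push_cast
    ring
  rw [e] at h2
  exact h2

/-- one step -/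
private theorem ems_step (t θ : ℝ) (N n : ℕ) (hN : 1 ≤ N) (hn : N ≤ n) (hθ : 0 ≤ θ) :
    ‖emsF t θ ((n + 1 : ℕ) : ℝ) - (emsG t θ ((n + 1 : ℕ) : ℝ) - emsG t θ (n : ℝ))‖ ≤
      |t| / N := by
  have hN0 : (0 : ℝ) < N := by exact_mod_cast hN
  have hn' : (N : ℝ) ≤ n := by exact_mod_cast hn
  have hpos : ∀ x ∈ Set.Icc (n : ℝ) ((n + 1 : ℕ) : ℝ), 0 < x + θ := by
    intro x hx
    have := hx.1
    linarith
  have hF : ∀ x ∈ Set.Icc (n : ℝ) ((n + 1 : ℕ) : ℝ),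
      ‖emsF t θ x - emsF t θ ((n + 1 : ℕ) : ℝ)‖ ≤ |t| / N := by
    intro x hx
    have h1 := Convex.norm_image_sub_le_of_norm_hasDerivWithin_le (𝕜 := ℝ) (C := |t| / N)
      (f := emsF t θ) (s := Set.Icc (n : ℝ) ((n + 1 : ℕ) : ℝ))
      (fun y hy => (ems_derF t θ y (hpos y hy)).hasDerivWithinAt)
      (fun y hy => by
        rw [norm_mul, ems_norm, one_mul, norm_mul, Complex.norm_I, mul_one,
          Complex.norm_real, Real.norm_eq_abs, abs_neg, abs_mul, abs_inv,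
          abs_of_pos (hpos y hy), div_eq_mul_inv]
        refine mul_le_mul_of_nonneg_left ?_ (abs_nonneg t)
        have := hy.1
        exact inv_anti₀ hN0 (by linarith))
      (convex_Icc _ _) (Set.right_mem_Icc.2 (by push_cast; linarith)) hx
    refine h1.trans ?_
    have h2 : ‖x - ((n + 1 : ℕ) : ℝ)‖ ≤ 1 := by
      rw [Real.norm_eq_abs, abs_le]
      have a1 := hx.1
      have a2 := hx.2
      push_cast at a2 ⊢
      constructor <;> linarith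
    have h3 : 0 ≤ |t| / N := by positivity
    nlinarith
  have h1 := Convex.norm_image_sub_le_of_norm_hasDerivWithin_le (𝕜 := ℝ) (C := |t| / N)
    (f := fun x : ℝ => emsG t θ x - (x : ℂ) * emsF t θ ((n + 1 : ℕ) : ℝ))
    (f' := fun x : ℝ => emsF t θ x - emsF t θ ((n + 1 : ℕ) : ℝ))
    (s := Set.Icc (n : ℝ) ((n + 1 : ℕ) : ℝ))
    (fun y hy => by
      have a1 := ems_derG t θ y (hpos y hy)
      have a2 : HasDerivAt (fun x : ℝ => (x : ℂ) * emsF t θ ((n + 1 : ℕ) : ℝ))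
          (((1 : ℝ) : ℂ) * emsF t θ ((n + 1 : ℕ) : ℝ)) y :=
        ((hasDerivAt_id y).ofReal_comp).mul_const _
      have a3 := a1.sub a2
      rw [Complex.ofReal_one, one_mul] at a3
      exact a3.hasDerivWithinAt)
    hF (convex_Icc _ _) (Set.left_mem_Icc.2 (by push_cast; linarith))
    (Set.right_mem_Icc.2 (by push_cast; linarith))
  have h2 : ‖((n + 1 : ℕ) : ℝ) - (n : ℝ)‖ = 1 := by
    push_cast
    simp
  rw [h2, mul_one] at h1
  have e : emsF t θ ((n + 1 : ℕ) : ℝ) - (emsG t θ ((n + 1 : ℕ) : ℝ) - emsG t θ (n : ℝ)) =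
      -((emsG t θ ((n + 1 : ℕ) : ℝ) - ((((n + 1 : ℕ) : ℝ) : ℝ) : ℂ) *
        emsF t θ ((n + 1 : ℕ) : ℝ)) - (emsG t θ (n : ℝ) - (((n : ℝ) : ℝ) : ℂ) *
        emsF t θ ((n + 1 : ℕ) : ℝ))) := by
    push_cast
    ring
  rw [e, norm_neg]
  exact h1

private theorem ems_sum (t θ : ℝ) (N : ℕ) (hN : 1 ≤ N) (hθ : 0 ≤ θ) (M : ℕ) (hM : N ≤ M) :
    ‖∑ n ∈ Ioc N M, cs t θ n - (emsG t θ (M : ℝ) - emsG t θ (N : ℝ))‖ ≤
      ((M : ℝ) - N) * (|t| / N) := by
  induction M, hM using Nat.le_induction with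
  | base => simp
  | succ m hm ih =>
    rw [Finset.sum_Ioc_succ_top hm]
    have e : ∑ n ∈ Ioc N m, cs t θ n + cs t θ (m + 1) -
        (emsG t θ ((m + 1 : ℕ) : ℝ) - emsG t θ (N : ℝ)) =
        (∑ n ∈ Ioc N m, cs t θ n - (emsG t θ (m : ℝ) - emsG t θ (N : ℝ))) +
        (emsF t θ ((m + 1 : ℕ) : ℝ) - (emsG t θ ((m + 1 : ℕ) : ℝ) - emsG t θ (m : ℝ))) := by
      have : cs t θ (m + 1) = emsF t θ ((m + 1 : ℕ) : ℝ) := rfl
      rw [this]
      ring
    rw [e]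
    refine (norm_add_le _ _).trans ?_
    have h1 := ems_step t θ N m hN hm hθ
    push_cast at h1 ⊢
    linarith

private theorem ems_G_le (t θ x : ℝ) (ht : 1 ≤ |t|) (hx : 0 ≤ x + θ) :
    ‖emsG t θ x‖ ≤ (x + θ) / |t| := by
  unfold emsG
  rw [norm_div, norm_mul, ems_norm, mul_one, Complex.norm_real, Real.norm_eq_abs,
    abs_of_nonneg hx]
  refine div_le_div_of_nonneg_left hx (by linarith) ?_
  have h := Complex.abs_im_le_norm (1 - (t : ℂ) * Complex.I)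
  simpa using h

theorem hEMS : StEms := by
  refine ⟨6, by norm_num, fun N N' t θ hN hNN' hN' hθ hθ1 ht => ?_⟩
  have hN0 : (1 : ℝ) ≤ N := by exact_mod_cast hN
  have h1 := ems_sum t θ N hN hθ N' hNN'
  have hN'r : (N' : ℝ) ≤ 2 * N := by exact_mod_cast hN'
  have hNN'r : (N : ℝ) ≤ N' := by exact_mod_cast hNN'
  have h2 := ems_G_le t θ N' ht (by linarith)
  have h3 := ems_G_le t θ N ht (by linarith)
  have ht0 : 0 < |t| := by linarith
  have h4 : ((N' : ℝ) + θ) / |t| ≤ 3 * (N / |t|) := by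
    rw [← mul_div_assoc]
    exact div_le_div_of_nonneg_right (by linarith) ht0.le
  have h5 : ((N : ℝ) + θ) / |t| ≤ 3 * (N / |t|) := by
    rw [← mul_div_assoc]
    exact div_le_div_of_nonneg_right (by linarith) ht0.le
  have h6 : ((N' : ℝ) - N) * (|t| / N) ≤ |t| := by
    rw [mul_div_assoc', div_le_iff₀ (by linarith)]
    nlinarith
  have h7 : ‖∑ n ∈ Ioc N N', cs t θ n‖ ≤
      ‖∑ n ∈ Ioc N N', cs t θ n - (emsG t θ (N' : ℝ) - emsG t θ (N : ℝ))‖ +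
        (‖emsG t θ (N' : ℝ)‖ + ‖emsG t θ (N : ℝ)‖) := by
    have e : ∑ n ∈ Ioc N N', cs t θ n =
        (∑ n ∈ Ioc N N', cs t θ n - (emsG t θ (N' : ℝ) - emsG t θ (N : ℝ))) +
          (emsG t θ (N' : ℝ) - emsG t θ (N : ℝ)) := by ring
    calc ‖∑ n ∈ Ioc N N', cs t θ n‖ = ‖(∑ n ∈ Ioc N N', cs t θ n -
          (emsG t θ (N' : ℝ) - emsG t θ (N : ℝ))) + (emsG t θ (N' : ℝ) - emsG t θ (N : ℝ))‖ := by
          rw [← e]
      _ ≤ _ := (norm_add_le _ _).trans (add_le_add_right (norm_sub_le _ _) _)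
  have h8 : 0 ≤ |t| := abs_nonneg t
  linarith

end Pool.Agent.Helper67.GK
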