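import Pool.Agent.Helper23.GK.StA

set_option autoImplicit false

namespace Pool.Agent.Helper67.GK

open Finset
open Pool.Agent.Helper23.GK

theorem hPRM : StPrm := by
  refine ⟨160000, by norm_num, fun k Y hk hY => ?_⟩
  have hk6 : k ^ 6 ≤ Y := by
    have : k ^ 6 ≤ 160000 * k ^ 6 := by omega
    omega
  have hk0 : 1 ≤ k ^ 6 := Nat.one_le_pow _ _ (by omega)
  have hYn : 160000 ≤ Y := by omega
  have hYR : (160000 : ℝ) ≤ Y := by exact_mod_cast hYn
  set P := (Ioc Y (4 * Y)).filter Nat.Prime with hP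
  -- the fourth root
  set s : ℝ := √√(Y : ℝ) with hs
  have hs2 : s ^ 2 = √(Y : ℝ) := Real.sq_sqrt (Real.sqrt_nonneg _)
  have hs4 : s ^ 4 = Y := by
    rw [show (4 : ℕ) = 2 * 2 from rfl, pow_mul, hs2, Real.sq_sqrt (by linarith)]
  have hs20 : 20 ≤ s := by
    by_contra h
    push Not at h
    have h0 : 0 ≤ s := Real.sqrt_nonneg _
    have : s ^ 4 < 20 ^ 4 := pow_lt_pow_left₀ h h0 (by norm_num)
    rw [hs4] at this
    norm_num at this
    linarith
  have hs0 : 0 < s := by linarith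
  have hlog : Real.log (4 * Y) ≤ 4 * s := by
    rw [← hs4, Real.log_mul (by norm_num) (by positivity), Real.log_pow]
    have h1 := Real.log_le_sub_one_of_pos hs0
    have h2 : Real.log 4 = 2 * Real.log 2 := by
      rw [show (4 : ℝ) = 2 ^ 2 by norm_num, Real.log_pow]; norm_num
    have h3 := Real.log_two_lt_d9
    rw [h2]
    push_cast
    linarith
  have hlog0 : 0 < Real.log (4 * Y) := Real.log_pos (by linarith)
  have hlog1 : Real.log (4 * Y + 1) ≤ 4 * s + 1 := by
    have h1 : Real.log (4 * Y + 1) ≤ Real.log (4 * Y * 2) :=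
      Real.log_le_log (by positivity) (by linarith)
    rw [Real.log_mul (by positivity) (by norm_num)] at h1
    linarith [Real.log_two_lt_d9]
  have hth := Chebyshev.theta_ge (4 * Y)
  have hth2 := Chebyshev.theta_le_log4_mul_x (x := (Y : ℝ)) (by linarith)
  have hsq : √((4 * Y : ℕ) : ℝ) = 2 * s ^ 2 := by
    push_cast
    rw [Real.sqrt_mul (by norm_num), hs2, show (4 : ℝ) = 2 ^ 2 by norm_num,
      Real.sqrt_sq (by norm_num)]
  have hdiff : Chebyshev.theta ((4 * Y : ℕ) : ℝ) - Chebyshev.theta (Y : ℝ) ≤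
      P.card * Real.log (4 * Y) := by
    have e1 : Chebyshev.theta ((4 * Y : ℕ) : ℝ) =
        ∑ p ∈ (Ioc 0 (4 * Y)).filter Nat.Prime, Real.log p := by
      unfold Chebyshev.theta
      rw [Nat.floor_natCast]
    have e2 : Chebyshev.theta (Y : ℝ) = ∑ p ∈ (Ioc 0 Y).filter Nat.Prime, Real.log p := by
      unfold Chebyshev.theta
      rw [Nat.floor_natCast]
    have e3 : (Ioc 0 (4 * Y)).filter Nat.Prime = (Ioc 0 Y).filter Nat.Prime ∪ P := by
      rw [hP, ← filter_union, Ioc_union_Ioc_eq_Ioc (by omega) (by omega)]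
    have e4 : Disjoint ((Ioc 0 Y).filter Nat.Prime) P := by
      rw [disjoint_left]
      intro p hp hp'
      rw [mem_filter, mem_Ioc] at hp
      rw [hP, mem_filter, mem_Ioc] at hp'
      omega
    rw [e1, e2, e3, sum_union e4, add_sub_cancel_left]
    calc ∑ p ∈ P, Real.log p ≤ ∑ p ∈ P, Real.log (4 * Y) := by
          refine sum_le_sum fun p hp => ?_
          rw [hP, mem_filter, mem_Ioc] at hp
          have h1 : (0 : ℝ) < p := by exact_mod_cast hp.2.pos
          exact Real.log_le_log h1 (by exact_mod_cast hp.1.2)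
      _ = P.card * Real.log (4 * Y) := by rw [sum_const, nsmul_eq_mul]
  have hcard : (k ^ 3 : ℕ) ≤ P.card := by
    have h3 : ((k ^ 3 : ℕ) : ℝ) ≤ s ^ 2 := by
      have h1 : ((k ^ 6 : ℕ) : ℝ) ≤ s ^ 4 := by rw [hs4]; exact_mod_cast hk6
      have h2 : (((k ^ 3 : ℕ) : ℝ)) ^ 2 ≤ (s ^ 2) ^ 2 := by
        calc (((k ^ 3 : ℕ) : ℝ)) ^ 2 = ((k ^ 6 : ℕ) : ℝ) := by push_cast; ring
          _ ≤ s ^ 4 := h1
          _ = (s ^ 2) ^ 2 := by ring
      exact le_of_sq_le_sq h2 (by positivity)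
    by_contra hlt
    push Not at hlt
    have h4 : (P.card : ℝ) ≤ s ^ 2 := by
      have : (P.card : ℝ) ≤ ((k ^ 3 : ℕ) : ℝ) := by exact_mod_cast hlt.le
      linarith
    have h5 : P.card * Real.log (4 * Y) ≤ s ^ 2 * (4 * s) :=
      mul_le_mul h4 hlog hlog0.le (by positivity)
    rw [hsq] at hth
    push_cast at hth
    have h6 : 2 * (2 * s ^ 2) * Real.log (4 * Y) ≤ 2 * (2 * s ^ 2) * (4 * s) :=
      mul_le_mul_of_nonneg_left hlog (by positivity)
    have h2 : Real.log 4 = 2 * Real.log 2 := by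
      rw [show (4 : ℝ) = 2 ^ 2 by norm_num, Real.log_pow]; norm_num
    rw [h2] at hth2
    have h7 : (4 * Y) * Real.log 2 - (4 * s + 1) - 2 * (2 * s ^ 2) * (4 * s) -
        2 * Real.log 2 * Y ≤ s ^ 2 * (4 * s) := by
      push_cast at hdiff
      linarith
    rw [← hs4] at h7
    have h8 := Real.log_two_gt_d9
    have h9 : 2 * (s ^ 4) * 0.69 ≤ 2 * (s ^ 4) * Real.log 2 :=
      mul_le_mul_of_nonneg_left (by linarith) (by positivity)
    have h10 : 20 * s ^ 3 ≤ s ^ 4 := by nlinarith [pow_pos hs0 3]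
    have h11 : 400 * s ≤ s ^ 3 := by nlinarith [pow_pos hs0 2]
    nlinarith
  obtain ⟨Q, hQ, hQc⟩ := exists_subset_card_eq hcard
  refine ⟨Q, hQc, fun p hp => ?_⟩
  have := hQ hp
  rw [hP, mem_filter, mem_Ioc] at this
  exact ⟨this.2, this.1.1, this.1.2⟩

end Pool.Agent.Helper67.GK
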