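import Pool.Agent.Helper23.GK.StF

set_option autoImplicit false

namespace Pool.Agent.Helper67.GK

open Finset ArithmeticFunction
open Pool.Agent.Helper23.GK
open Pool.Agent.Helper2.MR (ch)

private lemma nch (t : ℝ) (n : ℕ) : ‖ch t n‖ = 1 := by
  unfold ch
  exact Complex.norm_exp_ofReal_mul_I _

private lemma blk_sum (e : ℕ) : ∑ n ∈ blk2 e, (1 : ℝ) / n ≤ 1 := by
  unfold blk2
  split_ifs with h
  · simp
  · obtain ⟨k, rfl⟩ : ∃ k, e = k + 1 := ⟨e - 1, by omega⟩
    rw [Nat.add_sub_cancel]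
    have h2 : (0 : ℝ) < 2 ^ k := by positivity
    calc ∑ n ∈ Ioc ((2 : ℕ) ^ k) (2 ^ (k + 1)), (1 : ℝ) / (n : ℝ)
        ≤ ∑ n ∈ Ioc ((2 : ℕ) ^ k) (2 ^ (k + 1)), (1 : ℝ) / 2 ^ k := by
          refine sum_le_sum fun n hn => ?_
          rw [mem_Ioc] at hn
          have : (2 : ℝ) ^ k ≤ n := by exact_mod_cast hn.1.le
          exact one_div_le_one_div_of_le h2 this
      _ = 1 := by
          rw [sum_const, Nat.card_Ioc, nsmul_eq_mul]
          have : (2 ^ (k + 1) - 2 ^ k : ℕ) = 2 ^ k := by rw [pow_succ]; omega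
          rw [this]
          push_cast
          field_simp

private lemma blk_mem {e n : ℕ} (h : n ∈ blk2 e) : 1 ≤ n ∧ n ≤ 2 ^ e := by
  unfold blk2 at h
  split_ifs at h with h0
  · rw [mem_singleton] at h
    subst h0; subst h; simp
  · rw [mem_Ioc] at h
    have := Nat.one_le_two_pow (n := e - 1)
    omega

private lemma AA_le (a : ℕ → ℂ) (e : ℕ) (t K : ℝ) (hK : 0 ≤ K)
    (ha : ∀ n ∈ blk2 e, ‖a n‖ ≤ K) : ‖AA a e t‖ ≤ K := by
  unfold AA
  calc ‖∑ n ∈ blk2 e, a n * ch t n / n‖ ≤ ∑ n ∈ blk2 e, ‖a n * ch t n / n‖ := norm_sum_le _ _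
    _ ≤ ∑ n ∈ blk2 e, K * (1 / n) := by
        refine sum_le_sum fun n hn => ?_
        rw [norm_div, norm_mul, nch, mul_one, Complex.norm_natCast, mul_one_div]
        exact div_le_div_of_nonneg_right (ha n hn) (Nat.cast_nonneg n)
    _ = K * ∑ n ∈ blk2 e, (1 : ℝ) / n := by rw [mul_sum]
    _ ≤ K * 1 := mul_le_mul_of_nonneg_left (blk_sum e) hK
    _ = K := mul_one K

theorem hSU0 : StSu0 := by
  intro q χ e t
  have h1 : ∀ n : ℕ, ‖χ (n : ZMod q)‖ ≤ 1 := fun n => χ.norm_le_one _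
  refine ⟨AA_le _ e t 1 zero_le_one ?_, AA_le _ e t 1 zero_le_one ?_,
    AA_le _ e t (1 + e) (by positivity) ?_⟩
  · intro n _
    unfold cmu
    rw [norm_mul]
    have : ‖((moebius n : ℤ) : ℂ)‖ ≤ 1 := by
      rw [Complex.norm_intCast]
      exact_mod_cast abs_moebius_le_one
    calc _ ≤ (1 : ℝ) * 1 := mul_le_mul this (h1 n) (norm_nonneg _) zero_le_one
      _ = 1 := mul_one 1
  · intro n _
    exact h1 n
  · intro n hn
    unfold clog
    obtain ⟨hn1, hn2⟩ := blk_mem hn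
    have hn1' : (1 : ℝ) ≤ n := by exact_mod_cast hn1
    rw [norm_mul, Complex.norm_real, Real.norm_eq_abs, abs_of_nonneg (Real.log_nonneg hn1')]
    have hl : Real.log n ≤ e := by
      calc Real.log n ≤ Real.log (2 ^ e : ℝ) := Real.log_le_log (by linarith) (by exact_mod_cast hn2)
        _ = e * Real.log 2 := by rw [Real.log_pow]
        _ ≤ e * 1 := mul_le_mul_of_nonneg_left (by linarith [Real.log_two_lt_d9]) (Nat.cast_nonneg e)
        _ = e := mul_one _
    calc _ ≤ 1 * Real.log n := mul_le_mul_of_nonneg_right (h1 n) (Real.log_nonneg hn1')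
      _ ≤ 1 + e := by linarith

end Pool.Agent.Helper67.GK
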