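import Pool.Agent.Helper23.GK.StA

/-! # Project GK, module VMV -/

set_option autoImplicit false

namespace Pool.Agent.Helper67.GK

open Finset
open Pool.Agent.Helper23.GK

private theorem vmv_triv (k s X : ℕ) : JJ k s X ≤ X ^ s * X ^ s := by
  unfold JJ
  refine le_trans (Finset.card_le_card (@Finset.filter_subset _ _ (_) _)) ?_
  rw [Finset.card_product, Fintype.card_piFinset]
  simp

private noncomputable def vmv_eta (k l : ℕ) : ℝ :=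
  (k : ℝ) * (k + 1) / 2 * (1 - 1 / (k : ℝ)) ^ l

private noncomputable def vmv_Ex (k l : ℕ) : ℝ :=
  2 * l * k - (k : ℝ) * (k + 1) / 2 + vmv_eta k l

private theorem vmv_base {k : ℕ} (hk : 2 ≤ k) : 0 ≤ 1 - 1 / (k : ℝ) ∧ 1 - 1 / (k : ℝ) ≤ 1 := by
  have hK : (2 : ℝ) ≤ k := by exact_mod_cast hk
  have h1 : 1 / (k : ℝ) ≤ 1 := by
    rw [div_le_one (by linarith)]
    linarith
  have h2 : 0 ≤ 1 / (k : ℝ) := by positivity
  constructor <;> linarith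

private theorem vmv_eta_nonneg {k : ℕ} (hk : 2 ≤ k) (l : ℕ) : 0 ≤ vmv_eta k l := by
  unfold vmv_eta
  have := (vmv_base hk).1
  positivity

private theorem vmv_eta_le {k : ℕ} (hk : 2 ≤ k) (l : ℕ) :
    vmv_eta k l ≤ (k : ℝ) * (k + 1) / 2 := by
  unfold vmv_eta
  have h := vmv_base hk
  have h1 : (1 - 1 / (k : ℝ)) ^ l ≤ 1 := pow_le_one₀ h.1 h.2
  have h2 : 0 ≤ (k : ℝ) * (k + 1) / 2 := by positivity
  nlinarith

private theorem vmv_Ex_succ {k : ℕ} (hk : 2 ≤ k) (l : ℕ) :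
    vmv_Ex k (l + 1) = vmv_Ex k l + 2 * k - vmv_eta k l / k := by
  have hK : (k : ℝ) ≠ 0 := by
    have : (2 : ℝ) ≤ k := by exact_mod_cast hk
    linarith
  unfold vmv_Ex vmv_eta
  rw [pow_succ]
  push_cast
  field_simp
  ring

private theorem vmv_Ex_nonneg {k : ℕ} (hk : 2 ≤ k) (l : ℕ) : 0 ≤ vmv_Ex k l := by
  have hK : (2 : ℝ) ≤ k := by exact_mod_cast hk
  induction l with
  | zero =>
    unfold vmv_Ex vmv_eta
    simp
  | succ l ih =>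
    rw [vmv_Ex_succ hk]
    have h1 : vmv_eta k l / k ≤ 2 * k := by
      rw [div_le_iff₀ (by linarith)]
      have := vmv_eta_le hk l
      nlinarith
    linarith

private theorem vmv_Ex_le {k : ℕ} (hk : 2 ≤ k) (l : ℕ) : vmv_Ex k l ≤ 2 * l * k := by
  unfold vmv_Ex
  have := vmv_eta_le hk l
  linarith

private theorem vmv_term {k l X p : ℕ} (hk : 2 ≤ k) (hX : 1 ≤ X) (hp : 0 < p) (hpX : p ≤ X)
    (hp8 : (p : ℝ) ≤ 8 * (X : ℝ) ^ ((k : ℝ)⁻¹)) {Dl : ℝ} (hD : 0 ≤ Dl)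
    (ih : ∀ X : ℕ, 1 ≤ X → (JJ k (l * k) X : ℝ) ≤ Dl * (X : ℝ) ^ vmv_Ex k l) :
    ((p ^ (2 * (l * k)) * (k.factorial * p ^ (k * (k - 1) / 2)) * X ^ k *
      JJ k (l * k) (X / p + 1) : ℕ) : ℝ) ≤
      k.factorial * 2 ^ vmv_Ex k l * 8 ^ ((k : ℝ) ^ 2) * Dl * (X : ℝ) ^ vmv_Ex k (l + 1) := by
  have hK : (2 : ℝ) ≤ k := by exact_mod_cast hk
  have hp0 : (0 : ℝ) < p := by exact_mod_cast hp
  have hx0 : (0 : ℝ) < X := by exact_mod_cast hX
  have hx1 : (1 : ℝ) ≤ X := by exact_mod_cast hX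
  have hpx : (p : ℝ) ≤ X := by exact_mod_cast hpX
  obtain ⟨e, he⟩ : ∃ e : ℝ, e = vmv_Ex k l := ⟨_, rfl⟩
  obtain ⟨t, ht⟩ : ∃ t : ℝ, t = vmv_eta k l := ⟨_, rfl⟩
  have he0 : 0 ≤ e := by rw [he]; exact vmv_Ex_nonneg hk l
  have ht0 : 0 ≤ t := by rw [ht]; exact vmv_eta_nonneg hk l
  have ht1 : t ≤ (k : ℝ) * (k + 1) / 2 := by rw [ht]; exact vmv_eta_le hk l
  have hE : e = 2 * l * k - (k : ℝ) * (k + 1) / 2 + t := by rw [he, ht]; rfl
  have hexp : 0 ≤ (k : ℝ) ^ 2 - t := by nlinarith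
  -- the number of variables
  have hJ : (JJ k (l * k) (X / p + 1) : ℝ) ≤ Dl * (2 * X / p) ^ e := by
    refine (ih _ (Nat.le_add_left 1 _)).trans ?_
    rw [← he]
    refine mul_le_mul_of_nonneg_left (Real.rpow_le_rpow (by positivity) ?_ he0) hD
    push_cast
    have h1 : ((X / p : ℕ) : ℝ) ≤ X / p := Nat.cast_div_le
    have h2 : (1 : ℝ) ≤ X / p := by
      rw [le_div_iff₀ hp0]
      linarith
    have h3 : 2 * (X : ℝ) / p = X / p + X / p := by ring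
    rw [h3]
    linarith
  have hhalf : ((k * (k - 1) / 2 : ℕ) : ℝ) = (k : ℝ) * (k - 1) / 2 := by
    rw [Nat.cast_div (even_iff_two_dvd.1 (Nat.even_mul_pred_self k)) (by norm_num)]
    push_cast [Nat.cast_sub (by omega : 1 ≤ k)]
    ring
  have hpow : (p : ℝ) ^ (2 * (l * k)) * (p : ℝ) ^ (k * (k - 1) / 2) * (2 * X / p) ^ e =
      2 ^ e * (X : ℝ) ^ e * (p : ℝ) ^ ((k : ℝ) ^ 2 - t) := by
    rw [Real.div_rpow (by positivity) hp0.le, Real.mul_rpow (by norm_num) hx0.le]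
    rw [← Real.rpow_natCast (p : ℝ) (2 * (l * k)), ← Real.rpow_natCast (p : ℝ) (k * (k - 1) / 2),
      hhalf]
    have h1 : (k : ℝ) ^ 2 - t = ((2 * (l * k) : ℕ) : ℝ) + (k : ℝ) * (k - 1) / 2 - e := by
      rw [hE]
      push_cast
      ring
    rw [h1, Real.rpow_sub hp0, Real.rpow_add hp0]
    ring
  have hp8' : (p : ℝ) ^ ((k : ℝ) ^ 2 - t) ≤
      8 ^ ((k : ℝ) ^ 2) * (X : ℝ) ^ (((k : ℝ) ^ 2 - t) / k) := by
    refine (Real.rpow_le_rpow hp0.le hp8 hexp).trans ?_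
    rw [Real.mul_rpow (by norm_num) (by positivity), ← Real.rpow_mul hx0.le]
    have h1 : (k : ℝ)⁻¹ * ((k : ℝ) ^ 2 - t) = ((k : ℝ) ^ 2 - t) / k := by ring
    rw [h1]
    refine mul_le_mul_of_nonneg_right ?_ (by positivity)
    exact Real.rpow_le_rpow_of_exponent_le (by norm_num) (by linarith)
  push_cast
  have hf0 : (0 : ℝ) ≤ k.factorial := by positivity
  calc (p : ℝ) ^ (2 * (l * k)) * (k.factorial * (p : ℝ) ^ (k * (k - 1) / 2)) * (X : ℝ) ^ k *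
      (JJ k (l * k) (X / p + 1) : ℝ)
      ≤ (p : ℝ) ^ (2 * (l * k)) * (k.factorial * (p : ℝ) ^ (k * (k - 1) / 2)) * (X : ℝ) ^ k *
        (Dl * (2 * X / p) ^ e) := mul_le_mul_of_nonneg_left hJ (by positivity)
    _ = k.factorial * (X : ℝ) ^ k * Dl * ((p : ℝ) ^ (2 * (l * k)) *
          (p : ℝ) ^ (k * (k - 1) / 2) * (2 * X / p) ^ e) := by ring
    _ = k.factorial * (X : ℝ) ^ k * Dl * (2 ^ e * (X : ℝ) ^ e *
          (p : ℝ) ^ ((k : ℝ) ^ 2 - t)) := by rw [hpow]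
    _ ≤ k.factorial * (X : ℝ) ^ k * Dl * (2 ^ e * (X : ℝ) ^ e *
          (8 ^ ((k : ℝ) ^ 2) * (X : ℝ) ^ (((k : ℝ) ^ 2 - t) / k))) := by
        refine mul_le_mul_of_nonneg_left ?_ (by positivity)
        exact mul_le_mul_of_nonneg_left hp8' (by positivity)
    _ = k.factorial * 2 ^ e * 8 ^ ((k : ℝ) ^ 2) * Dl * ((X : ℝ) ^ (k : ℝ) * (X : ℝ) ^ e *
          (X : ℝ) ^ (((k : ℝ) ^ 2 - t) / k)) := by
        rw [Real.rpow_natCast]
        ring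
    _ = k.factorial * 2 ^ vmv_Ex k l * 8 ^ ((k : ℝ) ^ 2) * Dl *
          (X : ℝ) ^ vmv_Ex k (l + 1) := by
        rw [← Real.rpow_add hx0, ← Real.rpow_add hx0, vmv_Ex_succ hk, ← he, ← ht]
        congr 2
        have hK0 : (k : ℝ) ≠ 0 := by linarith
        field_simp
        ring

private theorem vmv_step {k l X C₀ : ℕ} (h₁ : StStp) (hC : 1 ≤ C₀)
    (hP : ∀ k Y : ℕ, 2 ≤ k → C₀ * k ^ 6 ≤ Y →
      ∃ P : Finset ℕ, P.card = k ^ 3 ∧ ∀ p ∈ P, p.Prime ∧ Y < p ∧ p ≤ 4 * Y)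
    (hk : 2 ≤ k) (hX : (C₀ * k ^ 6) ^ k ≤ X) {Dl : ℝ} (hD : 0 ≤ Dl)
    (ih : ∀ X : ℕ, 1 ≤ X → (JJ k (l * k) X : ℝ) ≤ Dl * (X : ℝ) ^ vmv_Ex k l) :
    (JJ k ((l + 1) * k) X : ℝ) ≤ 2 * (k : ℝ) ^ 3 * (k.factorial * 2 ^ vmv_Ex k l *
      8 ^ ((k : ℝ) ^ 2) * Dl * (X : ℝ) ^ vmv_Ex k (l + 1)) := by
  have hK : (2 : ℝ) ≤ k := by exact_mod_cast hk
  have hk6 : 64 ≤ C₀ * k ^ 6 := by
    have h1 : 2 ^ 6 ≤ k ^ 6 := Nat.pow_le_pow_left hk 6
    calc 64 = 1 * 2 ^ 6 := by norm_num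
      _ ≤ C₀ * k ^ 6 := Nat.mul_le_mul hC h1
  have hkk : k ≤ C₀ * k ^ 6 := by
    calc k = 1 * k ^ 1 := by ring
      _ ≤ C₀ * k ^ 6 := Nat.mul_le_mul hC (Nat.pow_le_pow_right (by omega) (by norm_num))
  have hX1 : 1 ≤ X := le_trans (Nat.one_le_pow _ _ (by omega)) hX
  have hx0 : (0 : ℝ) < X := by exact_mod_cast hX1
  obtain ⟨r, hr⟩ : ∃ r : ℝ, r = (X : ℝ) ^ ((k : ℝ)⁻¹) := ⟨_, rfl⟩
  have hr0 : 0 ≤ r := by rw [hr]; positivity
  have hrk : r ^ k = X := by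
    rw [hr]
    exact Real.rpow_inv_natCast_pow hx0.le (by omega)
  have hCr : ((C₀ * k ^ 6 : ℕ) : ℝ) ≤ r := by
    have h1 : ((C₀ * k ^ 6 : ℕ) : ℝ) ^ k ≤ r ^ k := by
      rw [hrk]
      exact_mod_cast hX
    exact (pow_le_pow_iff_left₀ (by positivity) hr0 (by omega)).1 h1
  have hr64 : (64 : ℝ) ≤ r := by
    refine le_trans ?_ hCr
    exact_mod_cast hk6
  obtain ⟨Y, hY⟩ : ∃ Y : ℕ, Y = ⌈r⌉₊ := ⟨_, rfl⟩
  have hrY : r ≤ Y := by rw [hY]; exact Nat.le_ceil r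
  have hYr : (Y : ℝ) < r + 1 := by rw [hY]; exact Nat.ceil_lt_add_one hr0
  have hCY : C₀ * k ^ 6 ≤ Y := by
    have : ((C₀ * k ^ 6 : ℕ) : ℝ) ≤ Y := hCr.trans hrY
    exact_mod_cast this
  have hXY : X ≤ Y ^ k := by
    have : (X : ℝ) ≤ (Y : ℝ) ^ k := by
      rw [← hrk]
      exact pow_le_pow_left₀ hr0 hrY k
    exact_mod_cast this
  obtain ⟨P, hPc, hPp⟩ := hP k Y hk hCY
  have h4k : 4 * k ^ 4 ≤ X := by
    refine le_trans ?_ hX
    calc 4 * k ^ 4 ≤ k ^ 2 * k ^ 4 := Nat.mul_le_mul_right _ (by nlinarith)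
      _ = 1 * k ^ 6 := by ring
      _ ≤ C₀ * k ^ 6 := Nat.mul_le_mul_right _ hC
      _ = (C₀ * k ^ 6) ^ 1 := by ring
      _ ≤ (C₀ * k ^ 6) ^ k := Nat.pow_le_pow_right (by omega) (by omega)
  have hst := h₁ k (l * k) X P hk h4k hPc.ge fun p hp => by
    obtain ⟨a1, a2, _⟩ := hPp p hp
    exact ⟨a1, by omega, hXY.trans (Nat.pow_le_pow_left a2.le k)⟩
  have e1 : l * k + k = (l + 1) * k := by ring
  rw [e1] at hst
  have hst' : (JJ k ((l + 1) * k) X : ℝ) ≤ 2 * ∑ p ∈ P,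
      ((p ^ (2 * (l * k)) * (k.factorial * p ^ (k * (k - 1) / 2)) * X ^ k *
        JJ k (l * k) (X / p + 1) : ℕ) : ℝ) := by
    exact_mod_cast hst
  refine hst'.trans ?_
  have hsum : ∑ p ∈ P, ((p ^ (2 * (l * k)) * (k.factorial * p ^ (k * (k - 1) / 2)) * X ^ k *
        JJ k (l * k) (X / p + 1) : ℕ) : ℝ) ≤ ∑ p ∈ P, (k.factorial * 2 ^ vmv_Ex k l *
      8 ^ ((k : ℝ) ^ 2) * Dl * (X : ℝ) ^ vmv_Ex k (l + 1)) := by
    refine Finset.sum_le_sum fun p hp => ?_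
    obtain ⟨a1, a2, a3⟩ := hPp p hp
    have hp8 : (p : ℝ) ≤ 8 * r := by
      have h1 : (p : ℝ) ≤ 4 * Y := by exact_mod_cast a3
      linarith
    have hpX : p ≤ X := by
      have h2 : r ^ 2 ≤ r ^ k := pow_le_pow_right₀ (by linarith) hk
      have h3 : (p : ℝ) ≤ X := by
        rw [← hrk]
        nlinarith
      exact_mod_cast h3
    refine vmv_term hk hX1 a1.pos hpX ?_ hD ih
    rw [← hr]
    exact hp8
  rw [Finset.sum_const, hPc, nsmul_eq_mul] at hsum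
  push_cast at hsum ⊢
  linarith

private theorem vmv_exp_le (k : ℕ) : (k : ℝ) ≤ Real.exp k := by
  have := Real.add_one_le_exp (k : ℝ)
  linarith

private theorem vmv_A2 {k l : ℕ} (hk : 2 ≤ k) (hl : l ≤ 6 * k) :
    2 * (k : ℝ) ^ 3 * (k.factorial * 2 ^ vmv_Ex k l * 8 ^ ((k : ℝ) ^ 2)) ≤
      Real.exp (20 * (k : ℝ) ^ 3) := by
  have hK : (2 : ℝ) ≤ k := by exact_mod_cast hk
  have hk3 : (k : ℝ) ^ 2 ≤ (k : ℝ) ^ 3 := by nlinarith [sq_nonneg (k : ℝ)]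
  have hk1 : (k : ℝ) ≤ (k : ℝ) ^ 3 := by nlinarith [sq_nonneg (k : ℝ)]
  have hk0 : 1 ≤ (k : ℝ) ^ 3 := by linarith
  have he : (2 : ℝ) ≤ Real.exp 1 := by
    have := Real.add_one_le_exp (1 : ℝ)
    linarith
  have h1 : (2 : ℝ) ≤ Real.exp ((k : ℝ) ^ 3) := he.trans (Real.exp_le_exp.2 hk0)
  have h2 : (k : ℝ) ^ 3 ≤ Real.exp (3 * (k : ℝ) ^ 3) := by
    have : (k : ℝ) ^ 3 ≤ Real.exp k ^ 3 :=
      pow_le_pow_left₀ (by linarith) (vmv_exp_le k) 3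
    refine this.trans ?_
    rw [← Real.exp_nat_mul]
    exact Real.exp_le_exp.2 (by push_cast; linarith)
  have h3 : (k.factorial : ℝ) ≤ Real.exp ((k : ℝ) ^ 3) := by
    have a1 : (k.factorial : ℝ) ≤ (k : ℝ) ^ k := by exact_mod_cast Nat.factorial_le_pow k
    have a2 : (k : ℝ) ^ k ≤ Real.exp k ^ k := pow_le_pow_left₀ (by linarith) (vmv_exp_le k) k
    refine (a1.trans a2).trans ?_
    rw [← Real.exp_nat_mul]
    exact Real.exp_le_exp.2 (by nlinarith)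
  have h4 : (2 : ℝ) ^ vmv_Ex k l ≤ Real.exp (12 * (k : ℝ) ^ 3) := by
    have a1 : vmv_Ex k l ≤ 12 * (k : ℝ) ^ 3 := by
      have b1 := vmv_Ex_le hk l
      have b2 : (l : ℝ) ≤ 6 * k := by exact_mod_cast hl
      nlinarith
    calc (2 : ℝ) ^ vmv_Ex k l ≤ Real.exp 1 ^ vmv_Ex k l :=
          Real.rpow_le_rpow (by norm_num) he (vmv_Ex_nonneg hk l)
      _ = Real.exp (vmv_Ex k l) := by rw [← Real.exp_mul, one_mul]
      _ ≤ _ := Real.exp_le_exp.2 a1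
  have h5 : (8 : ℝ) ^ ((k : ℝ) ^ 2) ≤ Real.exp (3 * (k : ℝ) ^ 3) := by
    have a1 : (8 : ℝ) ≤ Real.exp 3 := by
      have : Real.exp 3 = Real.exp 1 ^ 3 := by
        rw [← Real.exp_nat_mul]
        norm_num
      rw [this]
      calc (8 : ℝ) = 2 ^ 3 := by norm_num
        _ ≤ Real.exp 1 ^ 3 := pow_le_pow_left₀ (by norm_num) he 3
    calc (8 : ℝ) ^ ((k : ℝ) ^ 2) ≤ Real.exp 3 ^ ((k : ℝ) ^ 2) :=
          Real.rpow_le_rpow (by norm_num) a1 (by positivity)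
      _ = Real.exp (3 * (k : ℝ) ^ 2) := by rw [← Real.exp_mul]
      _ ≤ _ := Real.exp_le_exp.2 (by linarith)
  have e : Real.exp (20 * (k : ℝ) ^ 3) = Real.exp ((k : ℝ) ^ 3) * Real.exp (3 * (k : ℝ) ^ 3) *
      (Real.exp ((k : ℝ) ^ 3) * Real.exp (12 * (k : ℝ) ^ 3) * Real.exp (3 * (k : ℝ) ^ 3)) := by
    rw [← Real.exp_add, ← Real.exp_add, ← Real.exp_add, ← Real.exp_add]
    congr 1
    ring
  rw [e]
  gcongr

theorem hVMV (h₁ : StStp) (h₂ : StPrm) : StVmv := by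
  obtain ⟨C₀, hC, hP⟩ := h₂
  have hC1 : (1 : ℝ) ≤ C₀ := by exact_mod_cast hC
  have hlogC : 0 ≤ Real.log C₀ := Real.log_nonneg hC1
  obtain ⟨C₁, hC₁⟩ : ∃ C₁ : ℝ, C₁ = 2 * (Real.log C₀ + 6) + 20 := ⟨_, rfl⟩
  have hC₁0 : 0 < C₁ := by rw [hC₁]; linarith
  refine ⟨6 * C₁, by linarith, fun k X hk hX => ?_⟩
  have hK : (2 : ℝ) ≤ k := by exact_mod_cast hk
  obtain ⟨A, hA⟩ : ∃ A : ℝ, A = Real.exp (C₁ * (k : ℝ) ^ 3) := ⟨_, rfl⟩
  have hA0 : 0 < A := by rw [hA]; exact Real.exp_pos _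
  -- A bounds
  have hA1 : (((C₀ * k ^ 6 : ℕ) : ℝ) ^ k) ^ (2 * k) ≤ A := by
    have h1 : ((C₀ * k ^ 6 : ℕ) : ℝ) ≤ Real.exp ((Real.log C₀ + 6) * k) := by
      push_cast
      have a1 : (C₀ : ℝ) = Real.exp (Real.log C₀) := (Real.exp_log (by linarith)).symm
      have a2 : (k : ℝ) ^ 6 ≤ Real.exp k ^ 6 :=
        pow_le_pow_left₀ (by linarith) (vmv_exp_le k) 6
      have a3 : Real.exp (k : ℝ) ^ 6 = Real.exp (6 * k) := by
        rw [← Real.exp_nat_mul]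
        norm_num
      calc (C₀ : ℝ) * (k : ℝ) ^ 6 ≤ Real.exp (Real.log C₀) * Real.exp (6 * k) := by
            rw [← a1, ← a3]
            exact mul_le_mul_of_nonneg_left a2 (by linarith)
        _ = Real.exp (Real.log C₀ + 6 * k) := by rw [Real.exp_add]
        _ ≤ _ := Real.exp_le_exp.2 (by nlinarith)
    rw [← pow_mul]
    calc ((C₀ * k ^ 6 : ℕ) : ℝ) ^ (k * (2 * k))
        ≤ Real.exp ((Real.log C₀ + 6) * k) ^ (k * (2 * k)) :=
          pow_le_pow_left₀ (by positivity) h1 _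
      _ = Real.exp ((k * (2 * k) : ℕ) * ((Real.log C₀ + 6) * k)) := by
          rw [← Real.exp_nat_mul]
      _ ≤ A := by
          rw [hA]
          refine Real.exp_le_exp.2 ?_
          rw [hC₁]
          push_cast
          have : 0 ≤ (k : ℝ) ^ 3 := by positivity
          nlinarith
  have hA2 : ∀ l : ℕ, l ≤ 6 * k →
      2 * (k : ℝ) ^ 3 * (k.factorial * 2 ^ vmv_Ex k l * 8 ^ ((k : ℝ) ^ 2)) ≤ A := by
    intro l hl
    refine (vmv_A2 hk hl).trans ?_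
    rw [hA, hC₁]
    refine Real.exp_le_exp.2 ?_
    have : 0 ≤ (k : ℝ) ^ 3 := by positivity
    nlinarith
  -- the induction
  have main : ∀ l : ℕ, l ≤ 6 * k → ∀ X : ℕ, 1 ≤ X →
      (JJ k (l * k) X : ℝ) ≤ A ^ l * (X : ℝ) ^ vmv_Ex k l := by
    intro l
    induction l with
    | zero =>
      intro _ X hX
      have h1 := vmv_triv k (0 * k) X
      have h2 : vmv_Ex k 0 = 0 := by
        unfold vmv_Ex vmv_eta
        simp
      rw [h2, Real.rpow_zero]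
      simp only [zero_mul, pow_zero, mul_one] at h1 ⊢
      exact_mod_cast h1
    | succ l ih =>
      intro hl X hX
      have hx1 : (1 : ℝ) ≤ X := by exact_mod_cast hX
      have hXE : 1 ≤ (X : ℝ) ^ vmv_Ex k (l + 1) := Real.one_le_rpow hx1 (vmv_Ex_nonneg hk _)
      rcases lt_or_ge X ((C₀ * k ^ 6) ^ k) with hlt | hge
      · have h1 := vmv_triv k ((l + 1) * k) X
        have h2 : (JJ k ((l + 1) * k) X : ℝ) ≤ (X : ℝ) ^ ((l + 1) * k) * (X : ℝ) ^ ((l + 1) * k) :=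
          by exact_mod_cast h1
        have h3 : (X : ℝ) ≤ ((C₀ * k ^ 6 : ℕ) : ℝ) ^ k := by
          exact_mod_cast hlt.le
        have h4 : (X : ℝ) ^ ((l + 1) * k) * (X : ℝ) ^ ((l + 1) * k) =
            ((X : ℝ) ^ (2 * k)) ^ (l + 1) := by
          rw [← pow_add, ← pow_mul]
          congr 1
          ring
        rw [h4] at h2
        have h5 : (X : ℝ) ^ (2 * k) ≤ A :=
          (pow_le_pow_left₀ (by positivity) h3 (2 * k)).trans hA1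
        have h6 : ((X : ℝ) ^ (2 * k)) ^ (l + 1) ≤ A ^ (l + 1) :=
          pow_le_pow_left₀ (by positivity) h5 _
        refine (h2.trans h6).trans ?_
        exact le_mul_of_one_le_right (by positivity) hXE
      · have h1 := vmv_step h₁ hC hP hk hge (pow_nonneg hA0.le l) (ih (by omega))
        refine h1.trans ?_
        have h2 := hA2 l (by omega)
        calc 2 * (k : ℝ) ^ 3 * (k.factorial * 2 ^ vmv_Ex k l * 8 ^ ((k : ℝ) ^ 2) * A ^ l *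
            (X : ℝ) ^ vmv_Ex k (l + 1)) =
            (2 * (k : ℝ) ^ 3 * (k.factorial * 2 ^ vmv_Ex k l * 8 ^ ((k : ℝ) ^ 2))) *
              (A ^ l * (X : ℝ) ^ vmv_Ex k (l + 1)) := by ring
          _ ≤ A * (A ^ l * (X : ℝ) ^ vmv_Ex k (l + 1)) :=
              mul_le_mul_of_nonneg_right h2 (by positivity)
          _ = A ^ (l + 1) * (X : ℝ) ^ vmv_Ex k (l + 1) := by ring
  have hfin := main (6 * k) le_rfl X hX
  have e1 : 6 * k * k = 6 * k ^ 2 := by ring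
  rw [e1] at hfin
  refine hfin.trans ?_
  have hx1 : (1 : ℝ) ≤ X := by exact_mod_cast hX
  have hAk : A ^ (6 * k) = Real.exp (6 * C₁ * (k : ℝ) ^ 4) := by
    rw [hA, ← Real.exp_nat_mul]
    congr 1
    push_cast
    ring
  rw [hAk]
  refine mul_le_mul_of_nonneg_left ?_ (Real.exp_pos _).le
  refine Real.rpow_le_rpow_of_exponent_le hx1 ?_
  unfold vmv_Ex vmv_eta
  have hb := vmv_base hk
  have h1 : (1 - 1 / (k : ℝ)) ^ (6 * k) ≤ Real.exp (-6) := by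
    have a1 : 1 - 1 / (k : ℝ) ≤ Real.exp (-(1 / (k : ℝ))) := by
      have := Real.add_one_le_exp (-(1 / (k : ℝ)))
      linarith
    refine (pow_le_pow_left₀ hb.1 a1 _).trans ?_
    rw [← Real.exp_nat_mul]
    refine Real.exp_le_exp.2 (le_of_eq ?_)
    have hK0 : (k : ℝ) ≠ 0 := by linarith
    push_cast
    field_simp
  have h2 : Real.exp (-6) ≤ 1 / 375 := by
    rw [Real.exp_neg, ← one_div]
    refine one_div_le_one_div_of_le (by norm_num) ?_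
    have a1 : (2.7182818283 : ℝ) < Real.exp 1 := Real.exp_one_gt_d9
    have a2 : Real.exp 6 = Real.exp 1 ^ 6 := by
      rw [← Real.exp_nat_mul]
      norm_num
    rw [a2]
    calc (375 : ℝ) ≤ 2.7182818283 ^ 6 := by norm_num
      _ ≤ Real.exp 1 ^ 6 := pow_le_pow_left₀ (by norm_num) a1.le 6
  have h3 : (k : ℝ) * (k + 1) / 2 * (1 - 1 / (k : ℝ)) ^ (6 * k) ≤ (k : ℝ) ^ 2 / 500 := by
    have a1 : (k : ℝ) * (k + 1) / 2 ≤ 3 / 4 * (k : ℝ) ^ 2 := by nlinarith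
    have a2 : 0 ≤ (k : ℝ) * (k + 1) / 2 := by positivity
    calc (k : ℝ) * (k + 1) / 2 * (1 - 1 / (k : ℝ)) ^ (6 * k)
        ≤ (k : ℝ) * (k + 1) / 2 * (1 / 375) := mul_le_mul_of_nonneg_left (h1.trans h2) a2
      _ ≤ 3 / 4 * (k : ℝ) ^ 2 * (1 / 375) := mul_le_mul_of_nonneg_right a1 (by norm_num)
      _ = (k : ℝ) ^ 2 / 500 := by ring
  push_cast
  linarith

end Pool.Agent.Helper67.GK
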